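import Mathlib
import Pool.Agent.H576.CE.Stm

/-!
# The random shift clusters with a slow rate (task CE SHIFT of helper576)
-/

set_option autoImplicit false

namespace Pool.Agent.H437.CE

open Finset Pool.Agent.TH112.BW Pool.Agent.H576.CE

theorem ce_shift : S_SHIFT := by
  intro b hb0 hb1 V _ _ G hG
  classical
  haveI : Nonempty V := hG.nonempty
  set n := Fintype.card V with hn
  have hnpos : 0 < n := Fintype.card_pos
  have hnR : (0 : ℝ) < n := by exact_mod_cast hnpos
  set kk : V → V → ℝ := fun x u => b ^ (G.dist x u) with hkk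
  have hkp : ∀ x u, 0 < kk x u := fun x u => pow_pos hb0 _
  obtain ⟨ω, hω⟩ := exists_shift kk hkp
  change ∑ x, ∑ u, mf n (ω u) * kk x u / Fm n kk ω x ≤ 4 * (n : ℝ) at hω
  set m : V → ℝ := fun u => mf n (ω u) with hm
  have hmp : ∀ u, 0 < m u := fun u => mf_pos n _ hnpos
  have hm1 : ∀ u, 1 ≤ m u := by
    intro u
    simp only [hm, mf]
    have h1 : ((ω u : ℕ) : ℝ) + 1 ≤ n := by
      have := (ω u).isLt
      exact_mod_cast this
    have h2 : 1 ≤ (n : ℝ) / (((ω u : ℕ) : ℝ) + 1) := by
      rw [le_div_iff₀ (by positivity), one_mul]; exact h1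
    nlinarith
  have hmn : ∀ u, m u ≤ (n : ℝ) ^ 2 := by
    intro u
    simp only [hm, mf]
    apply pow_le_pow_left₀ (by positivity)
    rw [div_le_iff₀ (by positivity)]
    nlinarith [Nat.cast_nonneg (α := ℝ) (ω u : ℕ)]
  set F : V → ℝ := fun x => Fm n kk ω x with hF
  have hFle : ∀ x u, m u * kk x u ≤ F x := fun x u =>
    Finset.le_sup' (fun u => mf n (ω u) * kk x u) (Finset.mem_univ u)
  have hFex : ∀ x, ∃ u, m u * kk x u = F x := by
    intro x
    obtain ⟨u, -, hu⟩ := Finset.exists_mem_eq_sup' (Finset.univ_nonempty (α := V))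
      (fun u => mf n (ω u) * kk x u)
    exact ⟨u, hu.symm⟩
  have hFpos : ∀ x, 0 < F x := fun x => lt_of_lt_of_le (mul_pos (hmp x) (hkp x x)) (hFle x x)
  have hF1 : ∀ x, 1 ≤ F x := by
    intro x
    have h1 := hFle x x
    simp only [hkk, SimpleGraph.dist_self, pow_zero, mul_one] at h1
    linarith [hm1 x]
  -- comparison of the values at two vertices
  have hmove : ∀ x y u, b ^ G.dist x y * (m u * kk y u) ≤ m u * kk x u := by
    intro x y u
    have h2 : G.dist x u ≤ G.dist x y + G.dist y u := hG.dist_triangle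
    have h3 : b ^ (G.dist x y + G.dist y u) ≤ b ^ (G.dist x u) :=
      pow_le_pow_of_le_one hb0.le hb1.le h2
    simp only [hkk]
    calc b ^ G.dist x y * (m u * b ^ G.dist y u) = m u * b ^ (G.dist x y + G.dist y u) := by
          rw [pow_add]; ring
      _ ≤ m u * b ^ G.dist x u := mul_le_mul_of_nonneg_left h3 (hmp u).le
  have hFmove : ∀ x y, b ^ G.dist x y * F y ≤ F x := by
    intro x y
    obtain ⟨u, hu⟩ := hFex y
    rw [← hu]
    exact (hmove x y u).trans (hFle x u)
  -- clusters
  set e := Fintype.equivFin V with he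
  have hcl : ∀ x, ∃ u, m u * kk x u = F x ∧ ∀ u', m u' * kk x u' = F x → e u ≤ e u' := by
    intro x
    obtain ⟨u0, hu0⟩ := hFex x
    obtain ⟨u, hu, hum⟩ := Finset.exists_min_image (Finset.univ.filter (fun u => m u * kk x u = F x)) e
      ⟨u0, by simp [hu0]⟩
    exact ⟨u, (Finset.mem_filter.mp hu).2, fun u' hu' => hum u' (by simp [hu'])⟩
  choose cl hcl1 hcl2 using hcl
  have hself : ∀ x, m (cl x) * kk (cl x) (cl x) = F (cl x) := by
    intro x
    refine le_antisymm (hFle _ _) ?_
    have h4 : 0 < b ^ G.dist x (cl x) := pow_pos hb0 _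
    have h5 : b ^ G.dist x (cl x) * F (cl x) ≤ b ^ G.dist x (cl x) * (m (cl x) * kk (cl x) (cl x)) := by
      refine (hFmove x (cl x)).trans (le_of_eq ?_)
      rw [← hcl1 x]
      simp only [hkk, SimpleGraph.dist_self, pow_zero, mul_one]
      ring
    exact le_of_mul_le_mul_left h5 h4
  have hidem : ∀ x, cl (cl x) = cl x := by
    intro x
    apply e.injective
    apply le_antisymm
    · exact hcl2 (cl x) (cl x) (hself x)
    · apply hcl2 x (cl (cl x))
      refine le_antisymm (hFle _ _) ?_
      have h0 := hcl1 (cl x)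
      rw [← hself x] at h0
      rw [← hcl1 x]
      have h1 := hmove x (cl x) (cl (cl x))
      rw [h0] at h1
      refine le_trans (le_of_eq ?_) h1
      simp only [hkk, SimpleGraph.dist_self, pow_zero, mul_one]
      ring
  refine ⟨cl, fun x u => m u * kk x u / F x, hidem, ?_, ?_, ?_, ?_, hω⟩
  · -- star shape
    intro x hx
    have hd0 : G.dist x (cl x) ≠ 0 := fun h => hx ((hG.dist_eq_zero_iff).mp h).symm
    obtain ⟨d, hd⟩ := Nat.exists_eq_succ_of_ne_zero hd0
    obtain ⟨z, hz1, hz2⟩ := exists_closer hG x (cl x) d hd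
    have hxz : G.dist x z = 1 := SimpleGraph.dist_eq_one_iff_adj.mpr hz1
    have hFx : F x = b * (m (cl x) * kk z (cl x)) := by
      rw [← hcl1 x]
      simp only [hkk]
      rw [hd, hz2, Nat.succ_eq_add_one, pow_succ]
      ring
    have hzF : m (cl x) * kk z (cl x) = F z := by
      refine le_antisymm (hFle z _) ?_
      have h1 := hFmove x z
      rw [hxz, pow_one, hFx] at h1
      exact le_of_mul_le_mul_left h1 hb0
    refine ⟨z, hz1, ?_, by rw [hz2, hd]⟩
    apply e.injective
    apply le_antisymm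
    · exact hcl2 z (cl x) hzF
    · apply hcl2 x (cl z)
      refine le_antisymm (hFle _ _) ?_
      have h1 := hmove x z (cl z)
      rw [hxz, pow_one, hcl1 z, ← hzF] at h1
      rw [hFx]
      exact h1
  · intro x
    calc (1 : ℝ) ≤ F x := hF1 x
      _ = m (cl x) * b ^ G.dist x (cl x) := (hcl1 x).symm
      _ ≤ _ := mul_le_mul_of_nonneg_right (hmn _) (pow_nonneg hb0.le _)
  · intro x u
    exact div_nonneg (mul_nonneg (hmp u).le (hkp x u).le) (hFpos x).le
  · intro x y
    show b ^ (2 * G.dist x y) ≤ m (cl y) * kk x (cl y) / F x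
    rw [le_div_iff₀ (hFpos x)]
    have h1 := hmove x y (cl y)
    rw [hcl1 y] at h1
    have h2 := hFmove y x
    rw [SimpleGraph.dist_comm] at h2
    have h3 := mul_le_mul_of_nonneg_left h2 (pow_nonneg hb0.le (G.dist x y))
    refine le_trans (le_of_eq ?_) (h3.trans h1)
    rw [two_mul, pow_add]
    ring

end Pool.Agent.H437.CE
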